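import Mathlib
import Pool.Agent.R758.Tomo.Base

/-!
MP_b27533_gt. A convex body in `ℝ³` which is not an ellipsoid and all of whose hyperplane
projections are linear images of completely symmetric sets.

The body has the support function `N(x) = (|x|⁴ + x₀⁴)^(1/4)`. In every plane through the origin
there is an orthonormal basis in which `N = ((s² + t²)² + c⁴ s⁴)^(1/4)`, and after rescaling the
first coordinate this becomes `(s⁴ + 2 l² s² t² + t⁴)^(1/4)`, which has all the symmetries of a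
square.
-/

set_option autoImplicit false
set_option linter.unusedSectionVars false

open MeasureTheory Set Metric
open scoped RealInnerProductSpace

namespace Pool.Agent.Results.MP_b27533_gt.NotEllipsoid

open Pool.Agent.R758 Pool.Agent.R758.Tomo

/-- Three dimensional Euclidean space. -/
abbrev E3 := EuclideanSpace ℝ (Fin 3)

/-- A square centred at the origin of a two dimensional Euclidean space, given by an isometry of
the space with the complex plane. -/
def square {V : Type*} [NormedAddCommGroup V] [InnerProductSpace ℝ V] (φ : ℂ ≃ₗᵢ[ℝ] V) : Set V :=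
  {x | |(φ.symm x).re| ≤ 1 ∧ |(φ.symm x).im| ≤ 1}

/-- `B` is the image under an invertible linear map of a completely symmetric convex body `A`,
which is moreover origin-symmetric and has all the symmetries of a square centred at the origin. -/
def IsLinearImageOfCS {V : Type*} [NormedAddCommGroup V] [InnerProductSpace ℝ V]
    [FiniteDimensional ℝ V] [MeasurableSpace V] [BorelSpace V] (B : Set V) : Prop :=
  ∃ (A : Set V) (T : V ≃ₗ[ℝ] V), IsConvexBody A ∧ CompletelySymmetric A ∧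
    (∀ x ∈ A, -x ∈ A) ∧ (∃ φ : ℂ ≃ₗᵢ[ℝ] V, Tomo.Sym (square φ) ⊆ Tomo.Sym A) ∧ B = T '' A

/-- The support function. -/
noncomputable def nn (x : E3) : ℝ := √(√(‖x‖ ^ 4 + x 0 ^ 4))

theorem nn_nonneg (x : E3) : 0 ≤ nn x := Real.sqrt_nonneg _

theorem nn_sq (x : E3) : nn x ^ 2 = √(‖x‖ ^ 4 + x 0 ^ 4) := by
  rw [nn, Real.sq_sqrt (Real.sqrt_nonneg _)]

theorem nn_four (x : E3) : nn x ^ 4 = ‖x‖ ^ 4 + x 0 ^ 4 := by
  have : nn x ^ 4 = (nn x ^ 2) ^ 2 := by ring
  rw [this, nn_sq, Real.sq_sqrt]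
  positivity

theorem eq_of_four {a b : ℝ} (ha : 0 ≤ a) (hb : 0 ≤ b) (h : a ^ 4 = b ^ 4) : a = b :=
  (pow_left_inj₀ ha hb (by norm_num)).1 h

theorem le_of_four {a b : ℝ} (hb : 0 ≤ b) (h : a ^ 4 ≤ b ^ 4) : a ≤ b :=
  le_of_pow_le_pow_left₀ (by norm_num) hb h

theorem nn_smul {t : ℝ} (ht : 0 ≤ t) (x : E3) : nn (t • x) = t * nn x := by
  apply eq_of_four (nn_nonneg _) (mul_nonneg ht (nn_nonneg _))
  rw [mul_pow, nn_four, nn_four, norm_smul, Real.norm_of_nonneg ht, PiLp.smul_apply, smul_eq_mul]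
  ring

theorem nn_neg (x : E3) : nn (-x) = nn x := by
  apply eq_of_four (nn_nonneg _) (nn_nonneg _)
  rw [nn_four, nn_four, norm_neg, PiLp.neg_apply]
  ring

theorem coord_le (x : E3) (i : Fin 3) : |x i| ≤ ‖x‖ := by
  have := PiLp.norm_apply_le x i
  rwa [Real.norm_eq_abs] at this

theorem nn_bounds (x : E3) : 1 * ‖x‖ ≤ nn x ∧ nn x ≤ 2 * ‖x‖ := by
  have h0 := coord_le x 0
  have h1 : |x 0| ^ 4 ≤ ‖x‖ ^ 4 := by gcongr
  have h2 : |x 0| ^ 4 = x 0 ^ 4 := by
    rw [show (4 : ℕ) = 2 * 2 from rfl, pow_mul, sq_abs, pow_mul]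
  rw [h2] at h1
  have h3 : 0 ≤ ‖x‖ ^ 4 := by positivity
  have h4 : 0 ≤ x 0 ^ 4 := by positivity
  constructor
  · apply le_of_four (nn_nonneg _)
    rw [nn_four, one_mul]
    linarith
  · apply le_of_four (by positivity)
    rw [nn_four, mul_pow]
    linarith

/-- The point of the body in the direction of `x` with `nn x = 1`. -/
noncomputable def pt (x : E3) : E3 := ‖x‖ ^ 2 • x + (x 0) ^ 3 • EuclideanSpace.single 0 (1 : ℝ)

theorem pt_inner (x z : E3) : ⟪pt x, z⟫ = ‖x‖ ^ 2 * ⟪x, z⟫ + x 0 ^ 3 * z 0 := by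
  rw [pt, inner_add_left, inner_smul_left, inner_smul_left, EuclideanSpace.inner_single_left]
  simp

theorem young (s t : ℝ) : s ^ 3 * t ≤ (3 * s ^ 4 + t ^ 4) / 4 := by
  have h : (3 * s ^ 4 + t ^ 4) / 4 - s ^ 3 * t =
      (s - t) ^ 2 * (2 * s ^ 2 + (s + t) ^ 2) / 4 := by ring
  have h2 : 0 ≤ (s - t) ^ 2 * (2 * s ^ 2 + (s + t) ^ 2) / 4 := by positivity
  linarith

theorem pt_le_unit (x z : E3) (hx : nn x = 1) (hz : nn z = 1) : ⟪pt x, z⟫ ≤ 1 := by
  rw [pt_inner]
  have h1 := nn_four x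
  have h2 := nn_four z
  rw [hx] at h1
  rw [hz] at h2
  have h3 : ‖x‖ ^ 2 * ⟪x, z⟫ ≤ ‖x‖ ^ 3 * ‖z‖ := by
    calc ‖x‖ ^ 2 * ⟪x, z⟫ ≤ ‖x‖ ^ 2 * (‖x‖ * ‖z‖) := by
          gcongr
          exact real_inner_le_norm x z
      _ = ‖x‖ ^ 3 * ‖z‖ := by ring
  have h4 := young ‖x‖ ‖z‖
  have h5 := young (x 0) (z 0)
  linarith

theorem supp (x : E3) : ∃ y ∈ body nn, ⟪y, x⟫ = nn x := by
  by_cases hx : x = 0
  · refine ⟨0, fun z => ?_, ?_⟩
    · rw [inner_zero_left]
      exact nn_nonneg z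
    · rw [hx]
      have h := nn_smul (le_refl (0 : ℝ)) (0 : E3)
      rw [zero_smul, zero_mul] at h
      rw [h, inner_zero_right]
  · have hpos : ∀ w : E3, w ≠ 0 → 0 < nn w := fun w hw =>
      lt_of_lt_of_le (by rw [one_mul]; exact norm_pos_iff.2 hw) (nn_bounds w).1
    have hn := hpos x hx
    set x' := (nn x)⁻¹ • x with hx'
    have h1 : nn x' = 1 := by rw [hx', nn_smul (inv_pos.2 hn).le, inv_mul_cancel₀ hn.ne']
    have hxx : x = nn x • x' := by rw [hx', smul_inv_smul₀ hn.ne']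
    refine ⟨pt x', fun z => ?_, ?_⟩
    · by_cases hz : z = 0
      · rw [hz, inner_zero_right]
        exact nn_nonneg 0
      · have hm := hpos z hz
        set z' := (nn z)⁻¹ • z with hz'
        have h2 : nn z' = 1 := by rw [hz', nn_smul (inv_pos.2 hm).le, inv_mul_cancel₀ hm.ne']
        have hzz : z = nn z • z' := by rw [hz', smul_inv_smul₀ hm.ne']
        have h3 := pt_le_unit x' z' h1 h2
        calc ⟪pt x', z⟫ = nn z * ⟪pt x', z'⟫ := by
              conv_lhs => rw [hzz]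
              rw [inner_smul_right]
          _ ≤ nn z * 1 := by gcongr
          _ = nn z := mul_one _
    · conv_lhs => rw [hxx]
      rw [inner_smul_right, pt_inner, real_inner_self_eq_norm_sq]
      have h4 := nn_four x'
      rw [h1] at h4
      have h5 : ‖x'‖ ^ 2 * ‖x'‖ ^ 2 + x' 0 ^ 3 * x' 0 = 1 := by
        calc ‖x'‖ ^ 2 * ‖x'‖ ^ 2 + x' 0 ^ 3 * x' 0 = ‖x'‖ ^ 4 + x' 0 ^ 4 := by ring
          _ = 1 := by rw [← h4]; norm_num
      rw [h5, mul_one]

theorem not_ellipsoid : ¬ IsEllipsoid (body nn) := by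
  rintro ⟨T, c, hb⟩
  have hsup := support_ellipsoid supp T c hb
  have hc : ∀ x, ⟪c, x⟫ = 0 := by
    intro x
    have h1 := hsup x
    have h2 := hsup (-x)
    rw [nn_neg, map_neg, norm_neg, inner_neg_right] at h2
    linarith
  set S := (T : E3 →L[ℝ] E3).adjoint with hS
  have hN : ∀ x, nn x = ‖S x‖ := by
    intro x
    rw [hsup x, hc x, zero_add]
  set e0 : E3 := EuclideanSpace.single 0 (1 : ℝ) with he0
  set e1 : E3 := EuclideanSpace.single 1 (1 : ℝ) with he1
  have hpar := parallelogram_law_with_norm ℝ (S e0) (S e1)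
  rw [← map_add, ← map_sub, ← hN, ← hN, ← hN, ← hN] at hpar
  have n0 : ‖e0‖ ^ 2 = 1 := by simp [he0]
  have n1 : ‖e1‖ ^ 2 = 1 := by simp [he1]
  have i01 : ⟪e0, e1⟫ = 0 := by simp [he0, he1, EuclideanSpace.inner_single_left]
  have np : ‖e0 + e1‖ ^ 2 = 2 := by
    rw [norm_add_sq_real, n0, n1, i01]; norm_num
  have nm : ‖e0 - e1‖ ^ 2 = 2 := by
    rw [norm_sub_sq_real, n0, n1, i01]; norm_num
  have c0 : e0 0 = 1 := by simp [he0]
  have c1 : e1 0 = 0 := by simp [he1]
  have four : ∀ x : E3, ‖x‖ ^ 4 = (‖x‖ ^ 2) ^ 2 := fun x => by ring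
  have v0 : nn e0 ^ 2 = √2 := by
    rw [nn_sq, four, n0, c0]; norm_num
  have v1 : nn e1 ^ 2 = 1 := by
    rw [nn_sq, four, n1, c1]; norm_num
  have v2 : nn (e0 + e1) ^ 2 = √5 := by
    rw [nn_sq, four, np, PiLp.add_apply, c0, c1]; norm_num
  have v3 : nn (e0 - e1) ^ 2 = √5 := by
    rw [nn_sq, four, nm, PiLp.sub_apply, c0, c1]; norm_num
  rw [v0, v1, v2, v3] at hpar
  have s2 : √2 ^ 2 = 2 := Real.sq_sqrt (by norm_num)
  have s5 : √5 ^ 2 = 5 := Real.sq_sqrt (by norm_num)
  have h5 : √5 = √2 + 1 := by linarith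
  rw [h5] at s5
  have h2 : √2 = 1 := by nlinarith
  rw [h2] at s2
  norm_num at s2

/-- The rotation by `π/2`. -/
noncomputable def om : Circle := Circle.exp (Real.pi / 2)

theorem om_coe : (om : ℂ) = Complex.I := by
  rw [om, Circle.coe_exp]
  push_cast
  exact Complex.exp_pi_div_two_mul_I

theorem om_im : (om : ℂ).im ≠ 0 := by
  rw [om_coe]
  simp

/-- The diagonal map with entries `l, 1` on the complex plane. -/
noncomputable def diag (l : ℝ) (hl : l ≠ 0) : ℂ ≃ₗ[ℝ] ℂ where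
  toFun z := ⟨l * z.re, z.im⟩
  invFun z := ⟨l⁻¹ * z.re, z.im⟩
  map_add' x y := by apply Complex.ext <;> simp; ring
  map_smul' t x := by apply Complex.ext <;> simp; ring
  left_inv z := by apply Complex.ext <;> simp [hl]
  right_inv z := by apply Complex.ext <;> simp [hl]

theorem diag_apply (l : ℝ) (hl : l ≠ 0) (z : ℂ) : diag l hl z = ⟨l * z.re, z.im⟩ := rfl

/-- An isometry of a Euclidean space mapping a bounded origin-symmetric set containing the origin
onto itself fixes the origin. -/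
theorem fix_zero_of_symm {V : Type*} [NormedAddCommGroup V] [InnerProductSpace ℝ V]
    {C : Set V} {R : ℝ} (hR : ∀ x ∈ C, ‖x‖ ≤ R) (hsym : ∀ x ∈ C, -x ∈ C) (hne : (0 : V) ∈ C)
    (T : V ≃ᵢ V) (hT : T '' C = C) : T 0 = 0 := by
  by_contra hcon
  set w := T 0 with hw
  have hnw : 0 < ‖w‖ := norm_pos_iff.2 hcon
  -- the linear part
  have hL : ∀ x, T x = T.toRealLinearIsometryEquiv x + w := by
    intro x
    rw [IsometryEquiv.toRealLinearIsometryEquiv_apply, hw, sub_add_cancel]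
  have hstep : ∀ y ∈ C, y - (2 : ℝ) • w ∈ C := by
    intro y hy
    rw [← hT] at hy
    obtain ⟨x, hx, rfl⟩ := hy
    have h1 : T (-x) ∈ C := by
      rw [← hT]
      exact mem_image_of_mem _ (hsym x hx)
    have h2 := hsym _ h1
    have h3 : -T (-x) = T x - (2 : ℝ) • w := by
      rw [hL, hL, map_neg, two_smul]
      abel
    rwa [h3] at h2
  have hiter : ∀ k : ℕ, -((2 * (k : ℝ)) • w) ∈ C := by
    intro k
    induction k with
    | zero => simpa using hne
    | succ k ih =>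
      have := hstep _ ih
      have h4 : -((2 * (k : ℝ)) • w) - (2 : ℝ) • w = -((2 * ((k + 1 : ℕ) : ℝ)) • w) := by
        push_cast
        rw [mul_add, mul_one, add_smul, neg_add, sub_eq_add_neg]
      rwa [h4] at this
  obtain ⟨k, hk⟩ := exists_nat_gt (R / ‖w‖)
  rw [div_lt_iff₀ hnw] at hk
  have h5 := hR _ (hiter k)
  rw [norm_neg, norm_smul, Real.norm_of_nonneg (by positivity)] at h5
  have : 0 ≤ (k : ℝ) * ‖w‖ := by positivity
  linarith

/-- The set with support function `g` is invariant under a linear isometry if `g` is. -/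
theorem isom_body {V : Type*} [NormedAddCommGroup V] [InnerProductSpace ℝ V] (L : V ≃ₗᵢ[ℝ] V)
    {g : V → ℝ} (hg : ∀ x, g (L x) = g x) : L '' body g = body g := by
  ext y
  constructor
  · rintro ⟨z, hz, rfl⟩ x
    obtain ⟨x', rfl⟩ := L.surjective x
    rw [L.inner_map_map, hg]
    exact hz x'
  · intro hy
    obtain ⟨z, rfl⟩ := L.surjective y
    refine ⟨z, fun x => ?_, rfl⟩
    have := hy (L x)
    rwa [L.inner_map_map, hg] at this

/-- The linear isometries preserving a square centred at the origin preserve the maximum of the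
squares of the coordinates. -/
theorem max_le_of_square {V : Type*} [NormedAddCommGroup V] [InnerProductSpace ℝ V]
    (φ : ℂ ≃ₗᵢ[ℝ] V) (L : V ≃ₗᵢ[ℝ] V) (hL : ∀ x ∈ square φ, L x ∈ square φ) (x : V) :
    max ((φ.symm (L x)).re ^ 2) ((φ.symm (L x)).im ^ 2) ≤
      max ((φ.symm x).re ^ 2) ((φ.symm x).im ^ 2) := by
  set m := max |(φ.symm x).re| |(φ.symm x).im| with hm
  have hm0 : 0 ≤ m := le_max_of_le_left (abs_nonneg _)
  have hmm : max ((φ.symm x).re ^ 2) ((φ.symm x).im ^ 2) = m ^ 2 := by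
    rcases le_total |(φ.symm x).re| |(φ.symm x).im| with h | h
    · rw [hm, max_eq_right h, sq_abs, max_eq_right (sq_le_sq.2 h)]
    · rw [hm, max_eq_left h, sq_abs, max_eq_left (sq_le_sq.2 h)]
  rw [hmm]
  by_cases hz : m = 0
  · have h1 : |(φ.symm x).re| ≤ 0 := hz ▸ le_max_left _ _
    have h2 : |(φ.symm x).im| ≤ 0 := hz ▸ le_max_right _ _
    have h3 : φ.symm x = 0 := by
      apply Complex.ext
      · simpa using h1
      · simpa using h2
    have h4 : x = 0 := by simpa using h3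
    rw [h4]
    simp [hz]
  · have hpos : 0 < m := lt_of_le_of_ne hm0 (Ne.symm hz)
    have h1 : m⁻¹ • x ∈ square φ := by
      constructor
      · rw [map_smul, Complex.smul_re, smul_eq_mul, abs_mul, abs_of_pos (inv_pos.2 hpos),
          inv_mul_le_iff₀ hpos, mul_one]
        exact le_max_left _ _
      · rw [map_smul, Complex.smul_im, smul_eq_mul, abs_mul, abs_of_pos (inv_pos.2 hpos),
          inv_mul_le_iff₀ hpos, mul_one]
        exact le_max_right _ _
    obtain ⟨h2, h3⟩ := hL _ h1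
    rw [map_smul, map_smul, Complex.smul_re, smul_eq_mul, abs_mul, abs_of_pos (inv_pos.2 hpos),
      inv_mul_le_iff₀ hpos, mul_one] at h2
    rw [map_smul, map_smul, Complex.smul_im, smul_eq_mul, abs_mul, abs_of_pos (inv_pos.2 hpos),
      inv_mul_le_iff₀ hpos, mul_one] at h3
    apply max_le
    · rw [← sq_abs]; gcongr
    · rw [← sq_abs]; gcongr

theorem prod_eq {a b c d : ℝ} (h1 : a + b = c + d) (h2 : max a b = max c d) : a * b = c * d := by
  rcases le_total a b with h | h <;> rcases le_total c d with h' | h'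
  · rw [max_eq_right h, max_eq_right h'] at h2
    subst h2
    have : a = c := by linarith
    rw [this]
  · rw [max_eq_right h, max_eq_left h'] at h2
    subst h2
    have : a = d := by linarith
    rw [this, mul_comm]
  · rw [max_eq_left h, max_eq_right h'] at h2
    subst h2
    have : b = c := by linarith
    rw [this, mul_comm]
  · rw [max_eq_left h, max_eq_left h'] at h2
    subst h2
    have : b = d := by linarith
    rw [this]

theorem sym_square {V : Type*} [NormedAddCommGroup V] [InnerProductSpace ℝ V]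
    (φ : ℂ ≃ₗᵢ[ℝ] V) {g : V → ℝ} (F : ℝ → ℝ → ℝ)
    (hg : ∀ x, g x = F ((φ.symm x).re ^ 2 + (φ.symm x).im ^ 2)
      ((φ.symm x).re ^ 2 * (φ.symm x).im ^ 2)) :
    Tomo.Sym (square φ) ⊆ Tomo.Sym (body g) := by
  intro T hT
  have hT' : T '' square φ = square φ := hT
  have h0 : T 0 = 0 := by
    refine fix_zero_of_symm (R := 2) ?_ ?_ ?_ T hT'
    · rintro x ⟨h1, h2⟩
      have h3 : ‖φ.symm x‖ = ‖x‖ := φ.symm.norm_map x
      rw [← h3]
      have := Complex.norm_le_abs_re_add_abs_im (φ.symm x)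
      linarith
    · rintro x ⟨h1, h2⟩
      refine ⟨?_, ?_⟩
      · rw [map_neg, Complex.neg_re, abs_neg]; exact h1
      · rw [map_neg, Complex.neg_im, abs_neg]; exact h2
    · refine ⟨?_, ?_⟩ <;> simp
  set L := T.toRealLinearIsometryEquiv with hL
  have hLT : ∀ x, L x = T x := by
    intro x
    rw [hL, IsometryEquiv.toRealLinearIsometryEquiv_apply, h0, sub_zero]
  have hL1 : ∀ x ∈ square φ, L x ∈ square φ := by
    intro x hx
    rw [hLT, ← hT']
    exact mem_image_of_mem _ hx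
  have hL2 : ∀ x ∈ square φ, L.symm x ∈ square φ := by
    intro x hx
    rw [← hT'] at hx
    obtain ⟨y, hy, rfl⟩ := hx
    rw [← hLT, L.symm_apply_apply]
    exact hy
  have hinv : ∀ x, g (L x) = g x := by
    intro x
    have h1 := max_le_of_square φ L hL1 x
    have h2 := max_le_of_square φ L.symm hL2 (L x)
    rw [L.symm_apply_apply] at h2
    have h3 := le_antisymm h1 h2
    have h4 : (φ.symm (L x)).re ^ 2 + (φ.symm (L x)).im ^ 2 =
        (φ.symm x).re ^ 2 + (φ.symm x).im ^ 2 := by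
      have e : ∀ z : ℂ, z.re ^ 2 + z.im ^ 2 = ‖z‖ ^ 2 := by
        intro z
        rw [← Complex.normSq_eq_norm_sq, Complex.normSq_apply]; ring
      rw [e, e, φ.symm.norm_map, φ.symm.norm_map, L.norm_map]
    rw [hg, hg, h4, prod_eq h4 h3]
  change T '' body g = body g
  have h5 : (T : V → V) = L := by
    funext x
    rw [hLT]
  rw [h5]
  exact isom_body L hinv

/-- **Counterexample.** There is a convex body in `ℝ³` which is not an ellipsoid and all of whose
orthogonal projections onto planes are linear images of completely symmetric convex bodies, which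
even have all the symmetries of a square centred at the origin. -/
theorem result : ∃ K : Set E3, IsConvexBody K ∧ ¬ IsEllipsoid K ∧
    ∀ u : E3, ‖u‖ = 1 → IsLinearImageOfCS (shadow u K) := by
  have hK : IsConvexBody (body nn) :=
    body_isConvexBody (by norm_num : (0 : ℝ) < 1) (fun x => (nn_bounds x).1)
      (fun x => (nn_bounds x).2)
  refine ⟨body nn, hK, not_ellipsoid, ?_⟩
  intro u hu
  set H : Submodule ℝ E3 := (ℝ ∙ u)ᗮ with hH
  have hu0 : u ≠ 0 := by intro h; rw [h, norm_zero] at hu; exact zero_ne_one hu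
  have hfin : Module.finrank ℝ H = 2 := by
    have : Fact (Module.finrank ℝ E3 = 2 + 1) := ⟨by simp⟩
    exact Submodule.finrank_orthogonal_span_singleton hu0
  have hbas : Module.finrank ℝ ℂ = Module.finrank ℝ H := by
    rw [hfin, Complex.finrank_real_complex]
  let ψ : ℂ ≃ₗᵢ[ℝ] H :=
    (stdOrthonormalBasis ℝ ℂ).equiv (stdOrthonormalBasis ℝ H) (finCongr hbas)
  -- a good basis of the plane
  obtain ⟨φ, c, hφ⟩ : ∃ (φ : ℂ ≃ₗᵢ[ℝ] H) (c : ℝ), ∀ z : ℂ, ((φ z : H) : E3) 0 = c * z.re := by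
    set κ : ℂ := ⟨((ψ 1 : H) : E3) 0, ((ψ Complex.I : H) : E3) 0⟩ with hκ
    have hψ : ∀ z : ℂ, ((ψ z : H) : E3) 0 = κ.re * z.re + κ.im * z.im := by
      intro z
      have : z = z.re • (1 : ℂ) + z.im • Complex.I := by
        simp
      conv_lhs => rw [this, map_add, map_smul, map_smul]
      simp only [Submodule.coe_add, Submodule.coe_smul, PiLp.add_apply, PiLp.smul_apply,
        smul_eq_mul, hκ]
      ring
    by_cases hk : κ = 0
    · refine ⟨ψ, 0, fun z => ?_⟩
      rw [hψ, hk]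
      simp
    · have hkn : ‖κ‖ ≠ 0 := by simpa using hk
      let η : Circle := ⟨κ / ‖κ‖, by
        change κ / ‖κ‖ ∈ Metric.sphere (0 : ℂ) 1
        rw [mem_sphere_zero_iff_norm, norm_div, Complex.norm_real, norm_norm, div_self hkn]⟩
      refine ⟨(rotation η).trans ψ, ‖κ‖, fun z => ?_⟩
      have h1 : κ.re ^ 2 + κ.im ^ 2 = ‖κ‖ ^ 2 := by
        rw [← Complex.normSq_eq_norm_sq, Complex.normSq_apply]; ring
      have h2 : ((rotation η).trans ψ) z = ψ ((κ / ‖κ‖) * z) := by
        rw [LinearIsometryEquiv.trans_apply, rotation_apply]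
      rw [h2, hψ]
      have h3 : ((κ / ‖κ‖) * z).re = (κ.re * z.re - κ.im * z.im) / ‖κ‖ := by
        rw [div_mul_eq_mul_div, Complex.div_ofReal_re, Complex.mul_re]
      have h4 : ((κ / ‖κ‖) * z).im = (κ.re * z.im + κ.im * z.re) / ‖κ‖ := by
        rw [div_mul_eq_mul_div, Complex.div_ofReal_im, Complex.mul_im]
      rw [h3, h4]
      field_simp
      linear_combination z.re * h1
  -- the scaling factor
  obtain ⟨l, hl0, hl1, hl4⟩ : ∃ l : ℝ, 0 < l ∧ l ≤ 1 ∧ l ^ 4 * (1 + c ^ 4) = 1 := by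
    have hc4 : 0 ≤ c ^ 4 := by positivity
    refine ⟨(√(√(1 + c ^ 4)))⁻¹, by positivity, ?_, ?_⟩
    · apply inv_le_one_of_one_le₀
      rw [Real.one_le_sqrt, Real.one_le_sqrt]
      linarith
    · have h1 : (√(√(1 + c ^ 4))) ^ 4 = 1 + c ^ 4 := by
        rw [show (4 : ℕ) = 2 * 2 from rfl, pow_mul, Real.sq_sqrt (Real.sqrt_nonneg _),
          Real.sq_sqrt (by positivity)]
      rw [inv_pow, h1, inv_mul_cancel₀ (by positivity)]
  have hl : l ≠ 0 := hl0.ne'
  let D : H ≃ₗ[ℝ] H := (φ.symm.toLinearEquiv.trans (diag l hl)).trans φ.toLinearEquiv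
  have hD : ∀ z : ℂ, D (φ z) = φ ⟨l * z.re, z.im⟩ := by
    intro z
    change φ (diag l hl (φ.symm (φ z))) = _
    rw [φ.symm_apply_apply, diag_apply]
  have hDsymm : ∀ x y : H, ⟪D x, y⟫ = ⟪x, D y⟫ := by
    intro x y
    obtain ⟨a, rfl⟩ := φ.surjective x
    obtain ⟨b, rfl⟩ := φ.surjective y
    rw [hD, hD, φ.inner_map_map, φ.inner_map_map, Complex.inner, Complex.inner]
    simp
    ring
  set g : H → ℝ := fun x => nn ((D x : H) : E3) with hg
  have hnorm : ∀ z : ℂ, ‖((φ z : H) : E3)‖ = ‖z‖ := fun z => φ.norm_map z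
  have hnsq : ∀ z : ℂ, ‖z‖ ^ 4 = (z.re ^ 2 + z.im ^ 2) ^ 2 := by
    intro z
    have : ‖z‖ ^ 2 = z.re ^ 2 + z.im ^ 2 := by
      rw [← Complex.normSq_eq_norm_sq, Complex.normSq_apply]; ring
    rw [← this]; ring
  have hgF : ∀ x, g x = √(√(((φ.symm x).re ^ 2 + (φ.symm x).im ^ 2) ^ 2 -
      2 * (1 - l ^ 2) * ((φ.symm x).re ^ 2 * (φ.symm x).im ^ 2))) := by
    intro x
    obtain ⟨z, rfl⟩ := φ.surjective x
    rw [φ.symm_apply_apply]
    simp only [hg]
    rw [hD, nn, hnorm, hφ, hnsq]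
    congr 2
    simp only
    linear_combination z.re ^ 4 * hl4
  have hsq := sym_square φ (g := g) (fun a b => √(√(a ^ 2 - 2 * (1 - l ^ 2) * b))) hgF
  have hinv : ∀ x : H, g (rot φ om x) = g x := by
    intro x
    obtain ⟨z, rfl⟩ := φ.surjective x
    rw [rot_apply, hgF, hgF, φ.symm_apply_apply, φ.symm_apply_apply, om_coe]
    simp only [Complex.mul_re, Complex.mul_im, Complex.I_re, Complex.I_im]
    congr 2
    ring
  have hbg : ∀ x : H, l * ‖x‖ ≤ g x ∧ g x ≤ 2 * ‖x‖ := by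
    intro x
    obtain ⟨z, rfl⟩ := φ.surjective x
    have h1 := nn_bounds ((D (φ z) : H) : E3)
    simp only [hg]
    rw [hD] at h1 ⊢
    rw [hnorm] at h1
    rw [φ.norm_map]
    have e : ∀ z : ℂ, ‖z‖ ^ 2 = z.re ^ 2 + z.im ^ 2 := by
      intro z
      rw [← Complex.normSq_eq_norm_sq, Complex.normSq_apply]; ring
    have e1 := e z
    have e2 := e ⟨l * z.re, z.im⟩
    simp only at e2
    have hll : l ^ 2 ≤ 1 := by nlinarith
    have hre : 0 ≤ z.re ^ 2 := sq_nonneg _
    have him : 0 ≤ z.im ^ 2 := sq_nonneg _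
    constructor
    · have h2 : l * ‖z‖ ≤ ‖(⟨l * z.re, z.im⟩ : ℂ)‖ := by
        apply le_of_sq_le_sq _ (norm_nonneg _)
        rw [mul_pow, e1, e2]
        nlinarith
      linarith [h1.1]
    · have h2 : ‖(⟨l * z.re, z.im⟩ : ℂ)‖ ≤ ‖z‖ := by
        apply le_of_sq_le_sq _ (norm_nonneg _)
        rw [e1, e2]
        nlinarith
      linarith [h1.2]
  refine ⟨body g, D.symm, body_isConvexBody hl0 (fun x => (hbg x).1) (fun x => (hbg x).2),
    completelySymmetric_of_rot φ om_im (rot_body φ om hinv), ?_, ⟨φ, hsq⟩, ?_⟩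
  · intro y hy x
    have h1 := hy (-x)
    simp only [hg] at h1 ⊢
    rw [map_neg, Submodule.coe_neg, nn_neg, inner_neg_right] at h1
    rw [inner_neg_left]
    exact h1
  · unfold shadow
    rw [proj_body hK.1 supp]
    ext y
    constructor
    · intro hy
      refine ⟨D y, fun x => ?_, D.symm_apply_apply y⟩
      rw [hDsymm]
      exact hy (D x)
    · rintro ⟨w, hw, rfl⟩ x
      have h1 := hw (D.symm x)
      simp only [hg] at h1
      rw [D.apply_symm_apply] at h1
      have h2 : ⟪D.symm w, x⟫ = ⟪w, D.symm x⟫ := by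
        have h3 := hDsymm (D.symm w) (D.symm x)
        rw [D.apply_symm_apply, D.apply_symm_apply] at h3
        exact h3.symm
      rw [h2]
      exact h1

end Pool.Agent.Results.MP_b27533_gt.NotEllipsoid
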